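import Pool.Agent.N393.AHL.Cls

set_option autoImplicit false
set_option linter.unusedSectionVars false

/-!
# Longest paths in graphs of girth at least twelve: the part before the sixth vertex
-/

namespace Pool.Agent.N393.CF

open Finset Pool.Agent.TH676.Z Pool.Agent.Y335.FL SimpleGraph

variable {V : Type} [Fintype V] [DecidableEq V] {G : SimpleGraph V} {v : ℕ → V} {m : ℕ}

/-- `v 0, ..., v m` is a longest path -/
structure LP (G : SimpleGraph V) (v : ℕ → V) (m : ℕ) : Prop where
  inj : ∀ i ≤ m, ∀ j ≤ m, v i = v j → i = j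
  adj : ∀ i < m, G.Adj (v i) (v (i + 1))
  max : ∀ (x y : V) (p : G.Walk x y), p.IsPath → p.length ≤ m

/-- the part of the path from the sixth vertex on -/
def tl (v : ℕ → V) (m : ℕ) : Finset V := (Icc 5 m).image v

theorem mem_tl {x : V} : x ∈ tl v m ↔ ∃ i, 5 ≤ i ∧ i ≤ m ∧ v i = x := by
  unfold tl
  rw [mem_image]
  constructor
  · rintro ⟨i, hi, h⟩
    exact ⟨i, (mem_Icc.1 hi).1, (mem_Icc.1 hi).2, h⟩
  · rintro ⟨i, h1, h2, h⟩
    exact ⟨i, mem_Icc.2 ⟨h1, h2⟩, h⟩

/-- the graph without this part -/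
def fr (G : SimpleGraph V) (v : ℕ → V) (m : ℕ) : SimpleGraph V where
  Adj a b := G.Adj a b ∧ a ∉ tl v m ∧ b ∉ tl v m
  symm := ⟨fun _ _ h => ⟨h.1.symm, h.2.2, h.2.1⟩⟩
  loopless := ⟨fun a h => G.loopless.irrefl a h.1⟩

theorem fr_le : fr G v m ≤ G := fun _ _ h => h.1

theorem fr_supp {x y : V} (p : (fr G v m).Walk x y) (hx : x ∉ tl v m) :
    ∀ z ∈ p.support, z ∉ tl v m := by
  induction p with
  | nil =>
    intro z hz
    rw [Walk.support_nil, List.mem_singleton] at hz
    rw [hz]; exact hx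
  | cons h p ih =>
    intro z hz
    rw [Walk.support_cons, List.mem_cons] at hz
    rcases hz with rfl | hz
    · exact hx
    · exact ih h.2.2 z hz

theorem path_app {a b c d : V} {p : G.Walk a b} {q : G.Walk c d} (hp : p.IsPath) (hq : q.IsPath)
    (h : G.Adj b c) (hd : ∀ x ∈ p.support, x ∉ q.support) :
    (p.append (Walk.cons h q)).IsPath := by
  induction p with
  | nil =>
    rw [Walk.nil_append, Walk.cons_isPath_iff]
    exact ⟨hq, hd _ (Walk.start_mem_support _)⟩
  | cons h' p ih =>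
    rw [Walk.cons_isPath_iff] at hp
    rw [Walk.cons_append, Walk.cons_isPath_iff]
    refine ⟨ih hp.1 h (fun x hx => hd x (by
      rw [Walk.support_cons]; exact List.mem_cons_of_mem _ hx)), fun hm => ?_⟩
    rw [Walk.mem_support_append_iff, Walk.support_cons, List.mem_cons] at hm
    rcases hm with hm | hm | hm
    · exact hp.2 hm
    · exact hp.2 (by rw [hm]; exact Walk.end_mem_support _)
    · exact hd _ (Walk.start_mem_support _) hm

/-- a path and an edge between its ends are a circuit -/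
theorem close {a b : V} {p : G.Walk a b} (hp : p.IsPath) (hl : 2 ≤ p.length) (h : G.Adj b a) :
    (Walk.cons h p).IsCycle := by
  rw [Walk.cons_isCycle_iff]
  refine ⟨hp, fun he => ?_⟩
  cases p with
  | nil => simp at hl
  | cons h' q =>
    rename_i c
    rw [Walk.cons_isPath_iff] at hp
    rw [Walk.edges_cons, List.mem_cons] at he
    rcases he with he | he
    · rw [Sym2.eq_iff] at he
      rcases he with ⟨h1, _⟩ | ⟨h1, _⟩
      · exact h.ne h1
      · subst h1
        have hq := Walk.isPath_iff_nil.1 hp.1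
        rw [Walk.length_cons, Walk.length_eq_zero_iff.2 hq] at hl
        omega
    · exact hp.2 (q.snd_mem_support_of_mem_edges he)

theorem seg (h : LP G v m) : ∀ (n a b : ℕ), b = a + n → b ≤ m →
    ∃ p : G.Walk (v a) (v b), p.IsPath ∧ p.length = n ∧
      ∀ x ∈ p.support, ∃ i, a ≤ i ∧ i ≤ b ∧ v i = x := by
  intro n
  induction n with
  | zero =>
    intro a b hb _
    rw [add_zero] at hb
    subst hb
    refine ⟨Walk.nil, Walk.IsPath.nil, rfl, fun x hx => ?_⟩
    rw [Walk.support_nil, List.mem_singleton] at hx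
    exact ⟨b, le_rfl, le_rfl, hx.symm⟩
  | succ n ih =>
    intro a b hb hm
    obtain ⟨p, hp, hl, hs⟩ := ih (a + 1) b (by omega) hm
    refine ⟨Walk.cons (h.adj a (by omega)) p, ?_, by rw [Walk.length_cons, hl], ?_⟩
    · rw [Walk.cons_isPath_iff]
      refine ⟨hp, fun hx => ?_⟩
      obtain ⟨i, h1, h2, h3⟩ := hs _ hx
      have := h.inj i (by omega) a (by omega) h3
      omega
    · intro x hx
      rw [Walk.support_cons, List.mem_cons] at hx
      rcases hx with rfl | hx
      · exact ⟨a, le_rfl, by omega, rfl⟩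
      · obtain ⟨i, h1, h2, h3⟩ := hs _ hx
        exact ⟨i, by omega, h2, h3⟩

theorem low_tl (h : LP G v m) {i : ℕ} (hi : i ≤ 4) (hm : 5 ≤ m) : v i ∉ tl v m := by
  intro hx
  obtain ⟨j, h1, h2, h3⟩ := mem_tl.1 hx
  have := h.inj j h2 i (by omega) h3
  omega

/-- paths before the sixth vertex are short -/
theorem le4 (h : LP G v m) (hm : 5 ≤ m) {z : V} (p : (fr G v m).Walk (v 4) z) (hp : p.IsPath) :
    p.length ≤ 4 := by
  obtain ⟨q, hq, hql, hqs⟩ := seg h (m - 5) 5 m (by omega) le_rfl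
  have h1 := path_app (p := (p.mapLe fr_le).reverse) (q := q)
    ((Walk.isPath_reverse_iff _).2 (hp.mapLe fr_le)) hq (h.adj 4 (by omega)) (by
    intro x hx hx'
    rw [Walk.support_reverse, List.mem_reverse, Walk.support_mapLe_eq_support] at hx
    obtain ⟨i, h1, h2, h3⟩ := hqs x hx'
    exact fr_supp p (low_tl h le_rfl hm) x hx (mem_tl.2 ⟨i, h1, h2, h3⟩))
  have h2 := h.max _ _ _ h1
  rw [Walk.length_append, Walk.length_reverse, Walk.length_mapLe, Walk.length_cons, hql] at h2
  omega

theorem sep_aux (h12 : ∀ (w : V) (c : G.Walk w w), c.IsCycle → 12 ≤ c.length) (h : LP G v m)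
    {y y' : V} {a a' : ℕ} (ha : 5 ≤ a) (haa : a ≤ a') (ha' : a' ≤ m) (hy : y ∉ tl v m)
    (hya : G.Adj y (v a)) (hya' : G.Adj y' (v a')) (hne : ¬ (y = y' ∧ a = a'))
    (w : (fr G v m).Walk y y') : a + 10 ≤ a' + w.length := by
  have hql := w.length_bypass_le_length
  set q := w.bypass with hq
  have hqp : q.IsPath := w.bypass_isPath
  obtain ⟨s, hs, hsl, hss⟩ := seg h (a' - a) a a' (by omega) ha'
  have hqs := fr_supp q hy
  have ht : ∀ i, 5 ≤ i → i ≤ m → v i ∈ tl v m := fun i h1 h2 => mem_tl.2 ⟨i, h1, h2, rfl⟩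
  have h1 : ((q.mapLe fr_le).concat hya').IsPath := by
    refine (hqp.mapLe fr_le).concat ?_ hya'
    rw [Walk.support_mapLe_eq_support]
    exact fun hx => hqs _ hx (ht a' (by omega) ha')
  have h2 : (Walk.cons hya s).IsPath := by
    rw [Walk.cons_isPath_iff]
    refine ⟨hs, fun hx => ?_⟩
    obtain ⟨i, h3, h4, h5⟩ := hss _ hx
    exact hy (mem_tl.2 ⟨i, by omega, by omega, h5⟩)
  by_contra hcon
  have h3 := Ord.uniq h12 h1 h2 (by
    rw [Walk.length_concat, Walk.length_mapLe, Walk.length_cons, hsl]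
    omega)
  have h4 : v a ∈ ((q.mapLe fr_le).concat hya').support := by
    rw [h3, Walk.support_cons]
    exact List.mem_cons_of_mem _ (Walk.start_mem_support _)
  rw [Walk.support_concat, Walk.support_mapLe_eq_support, List.mem_append,
    List.mem_singleton] at h4
  rcases h4 with h4 | h4
  · exact hqs _ h4 (ht a ha (by omega))
  · have h5 : a = a' := h.inj a (by omega) a' ha' h4
    have h6 := congrArg Walk.length h3
    rw [Walk.length_concat, Walk.length_mapLe, Walk.length_cons, hsl] at h6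
    exact hne ⟨Walk.eq_of_length_eq_zero (p := q) (by omega), h5⟩

/-- the neighbours on the path are far apart -/
theorem sep (h12 : ∀ (w : V) (c : G.Walk w w), c.IsCycle → 12 ≤ c.length) (h : LP G v m)
    {y y' : V} {a a' : ℕ} (ha : 5 ≤ a) (ham : a ≤ m) (ha' : 5 ≤ a') (ham' : a' ≤ m)
    (hy : y ∉ tl v m) (hy' : y' ∉ tl v m)
    (hya : G.Adj y (v a)) (hya' : G.Adj y' (v a')) (hne : ¬ (y = y' ∧ a = a'))
    (w : (fr G v m).Walk y y') : a + 10 ≤ a' + w.length ∨ a' + 10 ≤ a + w.length := by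
  rcases le_total a a' with h1 | h1
  · exact Or.inl (sep_aux h12 h ha h1 ham' hy hya hya' hne w)
  · right
    have := sep_aux h12 h ha' h1 ham hy' hya' hya (fun h2 => hne ⟨h2.1.symm, h2.2.symm⟩) w.reverse
    rw [Walk.length_reverse] at this
    exact this

/-- circuits through the sixth vertex -/
theorem up {k : ℕ} (hc : ∀ (w : V) (c : G.Walk w w), c.IsCycle → c.length ≤ k) (hk : 2 ≤ k)
    (h : LP G v m) {y : V} {a : ℕ} (ha : 5 ≤ a) (ham : a ≤ m)
    (p : (fr G v m).Walk (v 4) y) (hp : p.IsPath) (hya : G.Adj y (v a)) :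
    a + p.length ≤ k + 3 := by
  obtain ⟨s, hs, hsl, hss⟩ := seg h (a - 5) 5 a (by omega) ham
  have hqs := fr_supp p (low_tl h le_rfl (by omega))
  have h1 := path_app (p := p.mapLe fr_le) (q := s.reverse) (hp.mapLe fr_le)
    ((Walk.isPath_reverse_iff _).2 hs) hya (by
    intro x hx hx'
    rw [Walk.support_mapLe_eq_support] at hx
    rw [Walk.support_reverse, List.mem_reverse] at hx'
    obtain ⟨i, h1, h2, h3⟩ := hss x hx'
    exact hqs x hx (mem_tl.2 ⟨i, h1, by omega, h3⟩))
  by_cases hl : 2 ≤ ((p.mapLe fr_le).append (Walk.cons hya s.reverse)).length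
  · have h2 := hc _ _ (close h1 hl (h.adj 4 (by omega)).symm)
    rw [Walk.length_cons, Walk.length_append, Walk.length_mapLe, Walk.length_cons,
      Walk.length_reverse, hsl] at h2
    omega
  · rw [Walk.length_append, Walk.length_mapLe, Walk.length_cons, Walk.length_reverse, hsl] at hl
    omega

/-- intervals around the neighbours on the path -/
theorem pack {ι : Type} (I : Finset ι) (a r : ι → ℕ) {lo hi : ℕ} (hlh : lo ≤ hi)
    (h1 : ∀ i ∈ I, lo + r i ≤ a i) (h2 : ∀ i ∈ I, a i + r i ≤ hi)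
    (h3 : ∀ i ∈ I, ∀ j ∈ I, i ≠ j → a i + r i + r j ≤ a j ∨ a j + r i + r j ≤ a i) :
    lo + ∑ i ∈ I, 2 * r i ≤ hi := by
  classical
  have h4 : ∑ i ∈ I, 2 * r i = (I.biUnion fun i => Ico (a i - r i) (a i + r i)).card := by
    rw [card_biUnion]
    · refine sum_congr rfl fun i hi => ?_
      have := h1 i hi
      rw [Nat.card_Ico]
      omega
    · intro i hi j hj hij
      change Disjoint (Ico (a i - r i) (a i + r i)) (Ico (a j - r j) (a j + r j))
      rw [Finset.disjoint_left]
      intro x hx hx'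
      rw [mem_Ico] at hx hx'
      rcases h3 i hi j hj hij with h | h
      · omega
      · omega
  have h5 : (I.biUnion fun i => Ico (a i - r i) (a i + r i)).card ≤ (Ico lo hi).card := by
    refine card_le_card ?_
    intro x hx
    obtain ⟨i, hi, hx⟩ := mem_biUnion.1 hx
    rw [mem_Ico] at hx ⊢
    have := h1 i hi
    have := h2 i hi
    omega
  rw [Nat.card_Ico] at h5
  omega

end Pool.Agent.N393.CF
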