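import Pool.Agent.N393.CF.Base

set_option autoImplicit false
set_option linter.unusedSectionVars false

/-!
# The tree before the sixth vertex of a longest path
-/

namespace Pool.Agent.N393.CF

open Finset Pool.Agent.TH676.Z Pool.Agent.Y335.FL SimpleGraph

variable {V : Type} [Fintype V] [DecidableEq V] {G : SimpleGraph V} {v : ℕ → V} {m : ℕ}

open Classical in
/-- the number of the neighbours on the path from the sixth vertex on -/
noncomputable def ld (G : SimpleGraph V) (v : ℕ → V) (m : ℕ) (y : V) : ℕ :=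
  ((tl v m).filter (fun t => G.Adj y t)).card

theorem fr12 (h12 : ∀ (w : V) (c : G.Walk w w), c.IsCycle → 12 ≤ c.length) :
    ∀ (w : V) (c : (fr G v m).Walk w w), c.IsCycle → 12 ≤ c.length := by
  intro w c hc
  have := h12 w (c.mapLe fr_le) (hc.mapLe fr_le)
  rwa [Walk.length_mapLe] at this

theorem parent (h12 : ∀ (w : V) (c : G.Walk w w), c.IsCycle → 12 ≤ c.length) {x y t : V}
    (p : (fr G v m).Walk x y) (hp : p.IsPath) (hl : p.length ≤ 4) (ht : t ∈ p.support)
    (hyt : (fr G v m).Adj y t) : t = p.getVert (p.length - 1) ∧ 1 ≤ p.length := by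
  have h1 := Ord.uniq (fr12 (v := v) (m := m) h12) (hp.dropUntil ht) (Ord.edge_path hyt.symm) (by
    have := p.length_dropUntil_le_length ht
    simp only [Walk.length_cons, Walk.length_nil]
    omega)
  have h2 := congrArg Walk.length h1
  simp only [Walk.length_cons, Walk.length_nil] at h2
  have h3 := congrArg Walk.length (p.take_spec ht)
  rw [Walk.length_append] at h3
  have h4 := p.getVert_length_takeUntil ht
  refine ⟨?_, by omega⟩
  rw [← h4]
  congr 1
  omega

open Classical in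
theorem vert (h12 : ∀ (w : V) (c : G.Walk w w), c.IsCycle → 12 ≤ c.length)
    (h3 : ∀ x y, G.Adj x y → ∃ a b c, G.Adj x a ∧ G.Adj x b ∧ G.Adj x c ∧ a ≠ b ∧ a ≠ c ∧ b ≠ c)
    {x y : V} (p : (fr G v m).Walk x y) (hp : p.IsPath) (hl : p.length ≤ 4) (hx : x ∉ tl v m)
    (hy : ∃ z, G.Adj y z) :
    3 ≤ ld G v m y +
      (univ.filter (fun y' => (fr G v m).Adj y y' ∧ y' ∉ p.support)).card + min 1 p.length := by
  obtain ⟨z, hz⟩ := hy
  have hyt : y ∉ tl v m := fr_supp p hx y (Walk.end_mem_support p)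
  set B : Finset V := univ.filter (fun t => (fr G v m).Adj y t ∧ t ∈ p.support) with hB
  have hBc : B.card ≤ min 1 p.length := by
    have h1 : B.card ≤ 1 := by
      rw [card_le_one]
      intro a ha b hb
      have ha' := (mem_filter.1 ha).2
      have hb' := (mem_filter.1 hb).2
      rw [(parent h12 p hp hl ha'.2 ha'.1).1, (parent h12 p hp hl hb'.2 hb'.1).1]
    rcases Nat.eq_zero_or_pos p.length with h0 | h0
    · have h2 : B = ∅ := by
        rw [eq_empty_iff_forall_notMem]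
        intro a ha
        have ha' := (mem_filter.1 ha).2
        have := (parent h12 p hp hl ha'.2 ha'.1).2
        omega
      rw [h2]
      simp
    · exact le_min h1 (h1.trans h0)
  obtain ⟨a, b, c, ha, hb, hc, hab, hac, hbc⟩ := h3 y z hz
  have h4 : ({a, b, c} : Finset V) ⊆ ((tl v m).filter (fun t => G.Adj y t)) ∪
      (univ.filter (fun y' => (fr G v m).Adj y y' ∧ y' ∉ p.support)) ∪ B := by
    intro t ht
    have hyt' : G.Adj y t := by
      simp only [mem_insert, mem_singleton] at ht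
      rcases ht with rfl | rfl | rfl <;> assumption
    rw [mem_union, mem_union]
    by_cases h5 : t ∈ tl v m
    · exact Or.inl (Or.inl (mem_filter.2 ⟨h5, hyt'⟩))
    · by_cases h6 : t ∈ p.support
      · exact Or.inr (mem_filter.2 ⟨mem_univ _, ⟨hyt', hyt, h5⟩, h6⟩)
      · exact Or.inl (Or.inr (mem_filter.2 ⟨mem_univ _, ⟨hyt', hyt, h5⟩, h6⟩))
  have h5 : ({a, b, c} : Finset V).card = 3 := by
    rw [card_insert_of_notMem (by simp [hab, hac]), card_pair hbc]
  have h6 := (card_le_card h4).trans (card_union_le _ _)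
  have h7 := card_union_le ((tl v m).filter (fun t => G.Adj y t))
    (univ.filter (fun y' => (fr G v m).Adj y y' ∧ y' ∉ p.support))
  rw [h5] at h6
  change 3 ≤ ((tl v m).filter (fun t => G.Adj y t)).card + _ + _
  omega

/-- every vertex of the tree has a neighbour -/
theorem nbr (h : LP G v m) (hm : 5 ≤ m) {y : V} (p : (fr G v m).Walk (v 4) y) :
    ∃ z, G.Adj y z := by
  cases hq : p.reverse with
  | nil => exact ⟨v 5, h.adj 4 (by omega)⟩
  | cons h' q => exact ⟨_, h'.1⟩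

open Classical in
/-- counting the neighbours of the vertices of one level -/
theorem lvl (h12 : ∀ (w : V) (c : G.Walk w w), c.IsCycle → 12 ≤ c.length)
    (h3 : ∀ x y, G.Adj x y → ∃ a b c, G.Adj x a ∧ G.Adj x b ∧ G.Adj x c ∧ a ≠ b ∧ a ≠ c ∧ b ≠ c)
    (h : LP G v m) (hm : 5 ≤ m) {d : ℕ} (hd : d ≤ 4) (X W : Finset V)
    (hX : ∀ y ∈ X, ∃ p : (fr G v m).Walk (v 4) y, p.IsPath ∧ p.length = d ∧
      ∀ y', (fr G v m).Adj y y' → y' ∉ p.support → y' ∈ W) :
    3 * X.card ≤ ∑ y ∈ X, ld G v m y + W.card + min 1 d * X.card := by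
  set C : V → Finset V := fun y => univ.filter (fun y' => (fr G v m).Adj y y' ∧
    ∃ p : (fr G v m).Walk (v 4) y, p.IsPath ∧ p.length = d ∧ y' ∉ p.support) with hC
  have h12F := fr12 (v := v) (m := m) h12
  have h1 : ∀ y ∈ X, 3 ≤ ld G v m y + (C y).card + min 1 d := by
    intro y hy
    obtain ⟨p, hp, hpl, _⟩ := hX y hy
    have h4 := vert h12 h3 p hp (by omega) (low_tl h le_rfl hm) (nbr h hm p)
    rw [hpl] at h4
    refine h4.trans ?_
    gcongr
    intro y' hy'
    have h5 := (mem_filter.1 hy').2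
    exact mem_filter.2 ⟨mem_univ _, h5.1, p, hp, hpl, h5.2⟩
  have h2 : ∑ y ∈ X, (C y).card ≤ W.card := by
    rw [← card_biUnion]
    · refine card_le_card ?_
      intro y' hy'
      obtain ⟨y, hy, hy'⟩ := mem_biUnion.1 hy'
      obtain ⟨_, h4, p, hp, hpl, h5⟩ := mem_filter.1 hy'
      obtain ⟨q, hq, hql, h6⟩ := hX y hy
      have h7 := Ord.uniq h12F hp hq (by omega)
      rw [h7] at h5
      exact h6 y' h4 h5
    · intro y1 hy1 y2 hy2 hne
      change Disjoint (C y1) (C y2)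
      rw [Finset.disjoint_left]
      intro y' h4 h5
      obtain ⟨_, a1, p, hp, hpl, a2⟩ := mem_filter.1 h4
      obtain ⟨_, b1, q, hq, hql, b2⟩ := mem_filter.1 h5
      have h6 := Ord.uniq h12F (hp.concat a2 a1) (hq.concat b2 b1) (by
        rw [Walk.length_concat, Walk.length_concat]
        omega)
      obtain ⟨h7, _⟩ := Walk.concat_inj h6
      exact hne h7
  have h4 : ∑ y ∈ X, 3 ≤ ∑ y ∈ X, (ld G v m y + (C y).card + min 1 d) := sum_le_sum h1
  rw [sum_add_distrib, sum_add_distrib, sum_const, sum_const, smul_eq_mul, smul_eq_mul] at h4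
  have h5 : min 1 d * X.card = X.card * min 1 d := mul_comm _ _
  rw [h5]
  omega

/-- the condition on the path from `v 4` -/
def Qc (v : ℕ → V) (c : ℕ) (l : List V) : Prop :=
  (c = 0 ∧ v 3 ∈ l ∧ v 2 ∈ l) ∨ (c = 1 ∧ v 3 ∈ l ∧ v 2 ∉ l) ∨ (c = 2 ∧ v 3 ∉ l)

theorem Qc.inj {c c' : ℕ} {l : List V} (h : Qc v c l) (h' : Qc v c' l) : c = c' := by
  unfold Qc at h h'
  rcases h with ⟨rfl, h1, h2⟩ | ⟨rfl, h1, h2⟩ | ⟨rfl, h1⟩ <;>
    rcases h' with ⟨rfl, h1', h2'⟩ | ⟨rfl, h1', h2'⟩ | ⟨rfl, h1'⟩ <;> first | rfl | contradiction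

open Classical in
/-- the classes of the vertices of the tree -/
noncomputable def K (G : SimpleGraph V) (v : ℕ → V) (m c d : ℕ) : Finset V :=
  univ.filter (fun y => ∃ p : (fr G v m).Walk (v 4) y, p.IsPath ∧ p.length = d ∧ Qc v c p.support)

open Classical in
theorem mem_K {c d : ℕ} {y : V} : y ∈ K G v m c d ↔
    ∃ p : (fr G v m).Walk (v 4) y, p.IsPath ∧ p.length = d ∧ Qc v c p.support := by
  unfold K
  rw [mem_filter]
  exact ⟨fun h => h.2, fun h => ⟨mem_univ _, h⟩⟩

theorem K_inj (h12 : ∀ (w : V) (c : G.Walk w w), c.IsCycle → 12 ≤ c.length) {c d c' d' : ℕ}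
    (hd : d ≤ 5) (hd' : d' ≤ 5) {y : V} (h : y ∈ K G v m c d) (h' : y ∈ K G v m c' d') :
    c = c' ∧ d = d' := by
  obtain ⟨p, hp, hpl, hQ⟩ := mem_K.1 h
  obtain ⟨q, hq, hql, hQ'⟩ := mem_K.1 h'
  have h1 := Ord.uniq (fr12 (v := v) (m := m) h12) hp hq (by omega)
  rw [h1] at hQ hpl
  exact ⟨hQ.inj hQ', by omega⟩

/-- the first five vertices of the longest path -/
theorem down (h : LP G v m) (hm : 5 ≤ m) : ∀ k, k ≤ 4 →
    ∃ p : (fr G v m).Walk (v 4) (v (4 - k)), p.IsPath ∧ p.length = k ∧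
      ∀ x, x ∈ p.support ↔ ∃ i, i ≤ k ∧ v (4 - i) = x := by
  intro k
  induction k with
  | zero =>
    intro _
    refine ⟨Walk.nil, Walk.IsPath.nil, rfl, fun x => ?_⟩
    rw [Walk.support_nil, List.mem_singleton]
    constructor
    · intro hx
      exact ⟨0, le_rfl, hx.symm⟩
    · rintro ⟨i, hi, hx⟩
      rw [Nat.le_zero.1 hi] at hx
      exact hx.symm
  | succ k ih =>
    intro hk
    obtain ⟨p, hp, hpl, hps⟩ := ih (by omega)
    have ha : (fr G v m).Adj (v (4 - k)) (v (4 - (k + 1))) := by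
      refine ⟨?_, low_tl h (by omega) hm, low_tl h (by omega) hm⟩
      have := h.adj (4 - (k + 1)) (by omega)
      rw [show 4 - (k + 1) + 1 = 4 - k by omega] at this
      exact this.symm
    have hn : v (4 - (k + 1)) ∉ p.support := by
      intro hx
      obtain ⟨i, hi, hx⟩ := (hps _).1 hx
      have := h.inj _ (by omega) _ (by omega) hx
      omega
    refine ⟨p.concat ha, hp.concat hn ha, by rw [Walk.length_concat, hpl], fun x => ?_⟩
    rw [Walk.support_concat, List.mem_append, List.mem_singleton, hps]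
    constructor
    · rintro (⟨i, hi, hx⟩ | hx)
      · exact ⟨i, by omega, hx⟩
      · exact ⟨k + 1, le_rfl, hx.symm⟩
    · rintro ⟨i, hi, hx⟩
      rcases Nat.lt_or_ge i (k + 1) with h1 | h1
      · exact Or.inl ⟨i, by omega, hx⟩
      · right
        rw [show i = k + 1 by omega] at hx
        exact hx.symm

theorem in_K (h : LP G v m) (hm : 5 ≤ m) {c k : ℕ} (hk : k ≤ 4)
    (hc : (c = 0 ∧ 2 ≤ k) ∨ (c = 1 ∧ k = 1) ∨ (c = 2 ∧ k = 0)) : v (4 - k) ∈ K G v m c k := by
  obtain ⟨p, hp, hpl, hps⟩ := down h hm k hk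
  have h3 : v 3 ∈ p.support ↔ 1 ≤ k := by
    rw [hps]
    constructor
    · rintro ⟨i, hi, hx⟩
      have := h.inj _ (by omega) _ (by omega) hx
      omega
    · intro h1
      exact ⟨1, h1, rfl⟩
  have h2 : v 2 ∈ p.support ↔ 2 ≤ k := by
    rw [hps]
    constructor
    · rintro ⟨i, hi, hx⟩
      have := h.inj _ (by omega) _ (by omega) hx
      omega
    · intro h1
      exact ⟨2, h1, rfl⟩
  refine mem_K.2 ⟨p, hp, hpl, ?_⟩
  unfold Qc
  rw [h3, h2]
  omega

/-- one class and the next one -/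
theorem lvlK (h12 : ∀ (w : V) (c : G.Walk w w), c.IsCycle → 12 ≤ c.length)
    (h3 : ∀ x y, G.Adj x y → ∃ a b c, G.Adj x a ∧ G.Adj x b ∧ G.Adj x c ∧ a ≠ b ∧ a ≠ c ∧ b ≠ c)
    (h : LP G v m) (hm : 5 ≤ m) {c d : ℕ} (hd1 : 1 ≤ d) (hd : d ≤ 4)
    (hcd : c = 0 ∨ (c = 1 ∧ 2 ≤ d) ∨ c = 2) :
    2 * (K G v m c d).card ≤ ∑ y ∈ K G v m c d, ld G v m y + (K G v m c (d + 1)).card := by
  have h12F := fr12 (v := v) (m := m) h12
  have h4 := lvl h12 h3 h hm hd (K G v m c d) (K G v m c (d + 1)) (by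
    intro y hy
    obtain ⟨p, hp, hpl, hQ⟩ := mem_K.1 hy
    refine ⟨p, hp, hpl, fun y' hyy hy' => ?_⟩
    refine mem_K.2 ⟨p.concat hyy, hp.concat hy' hyy, by rw [Walk.length_concat, hpl], ?_⟩
    have hlen : ∀ k, k ≤ 4 → v (4 - k) = y' → k = d + 1 := by
      intro k hk hv
      obtain ⟨q, hq, hql, _⟩ := down h hm k hk
      subst hv
      have h5 := Ord.uniq h12F hq (hp.concat hy' hyy) (by
        rw [Walk.length_concat]; omega)
      have h6 := congrArg Walk.length h5
      rw [Walk.length_concat] at h6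
      omega
    have e3 : v 3 = y' → 1 = d + 1 := hlen 1 (by norm_num)
    have e2 : v 2 = y' → 2 = d + 1 := hlen 2 (by norm_num)
    unfold Qc at hQ ⊢
    rw [Walk.support_concat, List.mem_append, List.mem_append, List.mem_singleton,
      List.mem_singleton]
    rcases hQ with ⟨h5, h6, h7⟩ | ⟨h5, h6, h7⟩ | ⟨h5, h6⟩
    · exact Or.inl ⟨h5, Or.inl h6, Or.inl h7⟩
    · refine Or.inr (Or.inl ⟨h5, Or.inl h6, ?_⟩)
      rintro (h8 | h8)
      · exact h7 h8
      · have := e2 h8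
        omega
    · refine Or.inr (Or.inr ⟨h5, ?_⟩)
      rintro (h8 | h8)
      · exact h6 h8
      · have := e3 h8
        omega)
  rw [Nat.min_eq_left hd1] at h4
  omega

theorem K5 (h : LP G v m) (hm : 5 ≤ m) (c : ℕ) : (K G v m c 5).card = 0 := by
  rw [card_eq_zero, eq_empty_iff_forall_notMem]
  intro y hy
  obtain ⟨p, hp, hpl, _⟩ := mem_K.1 hy
  have := le4 h hm p hp
  omega

/-- the vertex `v 3` -/
theorem lvl3 (h12 : ∀ (w : V) (c : G.Walk w w), c.IsCycle → 12 ≤ c.length)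
    (h3 : ∀ x y, G.Adj x y → ∃ a b c, G.Adj x a ∧ G.Adj x b ∧ G.Adj x c ∧ a ≠ b ∧ a ≠ c ∧ b ≠ c)
    (h : LP G v m) (hm : 5 ≤ m) :
    1 ≤ ∑ y ∈ K G v m 1 1, ld G v m y + (K G v m 1 2).card := by
  classical
  obtain ⟨p, hp, hpl, hps⟩ := down h hm 1 (by norm_num)
  have h4 := lvl h12 h3 h hm (d := 1) (by norm_num) {v 3} (insert (v 2) (K G v m 1 2)) (by
    intro y hy
    rw [mem_singleton] at hy
    subst hy
    refine ⟨p, hp, hpl, fun y' hyy hy' => ?_⟩
    rw [mem_insert]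
    by_cases h5 : y' = v 2
    · exact Or.inl h5
    · right
      refine mem_K.2 ⟨p.concat hyy, hp.concat hy' hyy, by rw [Walk.length_concat, hpl], ?_⟩
      refine Or.inr (Or.inl ⟨rfl, ?_, ?_⟩)
      · rw [Walk.support_concat, List.mem_append]
        exact Or.inl ((hps _).2 ⟨1, le_rfl, rfl⟩)
      · rw [Walk.support_concat, List.mem_append, List.mem_singleton]
        rintro (h6 | h6)
        · obtain ⟨i, hi, hx⟩ := (hps _).1 h6
          have := h.inj _ (by omega) _ (by omega) hx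
          omega
        · exact h5 h6.symm)
  have h5 : ld G v m (v 3) ≤ ∑ y ∈ K G v m 1 1, ld G v m y :=
    single_le_sum (f := fun y => ld G v m y) (fun _ _ => Nat.zero_le _)
      (in_K h hm (c := 1) (k := 1) (by norm_num) (by omega))
  have h6 := card_insert_le (v 2) (K G v m 1 2)
  rw [card_singleton, sum_singleton] at h4
  omega

/-- the vertex `v 4` -/
theorem lvl4 (h12 : ∀ (w : V) (c : G.Walk w w), c.IsCycle → 12 ≤ c.length)
    (h3 : ∀ x y, G.Adj x y → ∃ a b c, G.Adj x a ∧ G.Adj x b ∧ G.Adj x c ∧ a ≠ b ∧ a ≠ c ∧ b ≠ c)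
    (h : LP G v m) (hm : 5 ≤ m) :
    2 ≤ ∑ y ∈ K G v m 2 0, ld G v m y + (K G v m 2 1).card := by
  classical
  have h4 := lvl h12 h3 h hm (d := 0) (by norm_num) {v 4} (insert (v 3) (K G v m 2 1)) (by
    intro y hy
    rw [mem_singleton] at hy
    subst hy
    refine ⟨Walk.nil, Walk.IsPath.nil, rfl, fun y' hyy hy' => ?_⟩
    rw [mem_insert]
    by_cases h5 : y' = v 3
    · exact Or.inl h5
    · right
      refine mem_K.2 ⟨Walk.nil.concat hyy, Walk.IsPath.nil.concat hy' hyy, by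
        rw [Walk.length_concat, Walk.length_nil], ?_⟩
      refine Or.inr (Or.inr ⟨rfl, ?_⟩)
      rw [Walk.support_concat, List.mem_append, List.mem_singleton, Walk.support_nil,
        List.mem_singleton]
      rintro (h6 | h6)
      · have := h.inj 3 (by omega) 4 (by omega) h6
        omega
      · exact h5 h6.symm)
  have h5 : ld G v m (v 4) ≤ ∑ y ∈ K G v m 2 0, ld G v m y :=
    single_le_sum (f := fun y => ld G v m y) (fun _ _ => Nat.zero_le _)
      (in_K h hm (c := 2) (k := 0) (by norm_num) (by omega))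
  have h6 := card_insert_le (v 3) (K G v m 2 1)
  rw [card_singleton, sum_singleton] at h4
  omega

/-- ancestors -/
theorem anc {d : ℕ} (hK : 1 ≤ (K G v m 2 (d + 1)).card) : 1 ≤ (K G v m 2 d).card := by
  obtain ⟨y, hy⟩ := card_pos.1 hK
  obtain ⟨p, hp, hpl, hQ⟩ := mem_K.1 hy
  have hd : (p.dropLast).length = d := by
    rw [Walk.length_dropLast, hpl]
    omega
  refine card_pos.2 ⟨p.penultimate, mem_K.2 ⟨p.dropLast, hp.dropLast, hd, ?_⟩⟩
  unfold Qc at hQ ⊢
  refine Or.inr (Or.inr ⟨rfl, fun h1 => ?_⟩)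
  rcases hQ with ⟨h2, _⟩ | ⟨h2, _⟩ | ⟨_, h2⟩
  · omega
  · omega
  · have hn : ¬ p.Nil := by
      rw [← Walk.length_eq_zero_iff, hpl]
      omega
    rw [Walk.support_dropLast hn] at h1
    exact h2 (List.dropLast_subset _ h1)

end Pool.Agent.N393.CF
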