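import Pool.Agent.N393.CF.Cnt

set_option autoImplicit false
set_option linter.unusedSectionVars false

/-!
# Graphs of girth at least twelve and minimum degree at least three have circuits of length 46
-/

namespace Pool.Agent.N393.CF

open Finset Pool.Agent.TH676.Z Pool.Agent.Y335.FL SimpleGraph

variable {V : Type} [Fintype V] [DecidableEq V] {G : SimpleGraph V} {v : ℕ → V} {m : ℕ}

open Classical in
/-- the intervals around the neighbours on the path, for a centre `z` -/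
theorem pack2 (h12 : ∀ (w : V) (c : G.Walk w w), c.IsCycle → 12 ≤ c.length)
    (hc : ∀ (w : V) (c : G.Walk w w), c.IsCycle → c.length ≤ 45) (h : LP G v m) (hm : 5 ≤ m)
    (J : Finset (ℕ × ℕ)) (δ : ℕ × ℕ → ℕ) (z : V) (hJ : ∀ j ∈ J, j.2 ≤ 4)
    (hz : ∀ j ∈ J, ∀ y ∈ K G v m j.1 j.2, ∃ w : (fr G v m).Walk z y, w.length ≤ δ j)
    (hδ : ∀ j ∈ J, δ j ≤ 5) {lo hi : ℕ} (hlh : lo ≤ hi) (h0 : ((2, 0) : ℕ × ℕ) ∈ J)
    (hlo : lo + (5 - δ (2, 0)) ≤ 5) (hhi : ∀ j ∈ J, 53 ≤ hi + j.2 + δ j) :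
    lo + ∑ j ∈ J, 2 * (5 - δ j) * ∑ y ∈ K G v m j.1 j.2, ld G v m y ≤ hi := by
  have hidx : ∀ t : V, ∃ i : ℕ, t ∈ tl v m → 5 ≤ i ∧ i ≤ m ∧ v i = t := by
    intro t
    by_cases ht : t ∈ tl v m
    · obtain ⟨i, hi⟩ := mem_tl.1 ht
      exact ⟨i, fun _ => hi⟩
    · exact ⟨0, fun h => absurd h ht⟩
  choose idx hidx using hidx
  set I : Finset (Σ _ : ℕ × ℕ, Σ _ : V, V) := J.sigma (fun j => (K G v m j.1 j.2).sigma
    (fun y => (tl v m).filter (fun t => G.Adj y t))) with hI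
  have hmem : ∀ i ∈ I, i.1 ∈ J ∧ i.2.1 ∈ K G v m i.1.1 i.1.2 ∧ i.2.2 ∈ tl v m ∧
      G.Adj i.2.1 i.2.2 := by
    intro i hi
    rw [hI, mem_sigma, mem_sigma, mem_filter] at hi
    exact ⟨hi.1, hi.2.1, hi.2.2.1, hi.2.2.2⟩
  have hsum : ∑ i ∈ I, 2 * (5 - δ i.1) =
      ∑ j ∈ J, 2 * (5 - δ j) * ∑ y ∈ K G v m j.1 j.2, ld G v m y := by
    rw [hI, sum_sigma]
    refine sum_congr rfl fun j _ => ?_
    rw [sum_sigma, mul_sum]
    refine sum_congr rfl fun y _ => ?_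
    change ∑ s ∈ (tl v m).filter (fun t => G.Adj y t), 2 * (5 - δ j) = _
    rw [sum_const, smul_eq_mul, mul_comm]
    rfl
  have hinj := fun {c d c' d' : ℕ} (hd : d ≤ 4) (hd' : d' ≤ 4) {y : V} (h1 : y ∈ K G v m c d)
    (h2 : y ∈ K G v m c' d') => K_inj (G := G) (v := v) (m := m) h12
      (show d ≤ 5 by omega) (show d' ≤ 5 by omega) h1 h2
  have hnt : ∀ {c d : ℕ} {y : V}, y ∈ K G v m c d → y ∉ tl v m := by
    intro c d y hy
    obtain ⟨p, _, _, _⟩ := mem_K.1 hy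
    exact fr_supp p (low_tl h le_rfl hm) y (Walk.end_mem_support p)
  have h4K : v 4 ∈ K G v m 2 0 := in_K h hm (c := 2) (k := 0) (by norm_num) (by omega)
  -- two items
  have hsep : ∀ j ∈ J, ∀ j' ∈ J, ∀ y y' t t', y ∈ K G v m j.1 j.2 → y' ∈ K G v m j'.1 j'.2 →
      t ∈ tl v m → t' ∈ tl v m → G.Adj y t → G.Adj y' t' → ¬ (y = y' ∧ t = t') →
      idx t + 10 ≤ idx t' + (δ j + δ j') ∨ idx t' + 10 ≤ idx t + (δ j + δ j') := by
    intro j hj j' hj' y y' t t' hy hy' ht ht' hyt hyt' hne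
    obtain ⟨w, hw⟩ := hz j hj y hy
    obtain ⟨w', hw'⟩ := hz j' hj' y' hy'
    obtain ⟨a1, a2, a3⟩ := hidx t ht
    obtain ⟨b1, b2, b3⟩ := hidx t' ht'
    have h5 := sep h12 h a1 a2 b1 b2 (hnt hy) (hnt hy') (by rw [a3]; exact hyt)
      (by rw [b3]; exact hyt') (fun h6 => hne ⟨h6.1, by rw [← a3, ← b3, h6.2]⟩)
      (w.reverse.append w')
    rw [Walk.length_append, Walk.length_reverse] at h5
    omega
  rw [← hsum]
  refine pack I (fun i => idx i.2.2) (fun i => 5 - δ i.1) hlh ?_ ?_ ?_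
  · rintro ⟨j, y, t⟩ hi
    obtain ⟨hj, hy, ht, hyt⟩ : j ∈ J ∧ y ∈ K G v m j.1 j.2 ∧ t ∈ tl v m ∧ G.Adj y t := hmem _ hi
    obtain ⟨a1, a2, a3⟩ := hidx t ht
    have h5m : v 5 ∈ tl v m := mem_tl.2 ⟨5, le_rfl, hm, rfl⟩
    have hi5 : idx (v 5) = 5 := by
      obtain ⟨b1, b2, b3⟩ := hidx (v 5) h5m
      exact h.inj _ b2 _ hm b3
    have hj0 := hδ _ h0
    have hj1 := hδ _ hj
    change lo + (5 - δ j) ≤ idx t
    by_cases hcase : y = v 4 ∧ t = v 5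
    · obtain ⟨rfl, rfl⟩ := hcase
      have h6 := hinj (hJ j hj) (by norm_num) hy h4K
      have h7 : j = (2, 0) := Prod.ext h6.1 h6.2
      rw [h7, hi5]
      exact hlo
    · have h6 := hsep j hj (2, 0) h0 y (v 4) t (v 5) hy h4K ht h5m hyt (h.adj 4 (by omega)) hcase
      rw [hi5] at h6
      omega
  · rintro ⟨j, y, t⟩ hit
    obtain ⟨hj, hy, ht, hyt⟩ : j ∈ J ∧ y ∈ K G v m j.1 j.2 ∧ t ∈ tl v m ∧ G.Adj y t := hmem _ hit
    obtain ⟨a1, a2, a3⟩ := hidx t ht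
    obtain ⟨p, hp, hpl, _⟩ := mem_K.1 hy
    have h6 := up hc (by norm_num) h a1 a2 p hp (by rw [a3]; exact hyt)
    have h7 := hhi j hj
    have h8 := hδ j hj
    rw [hpl] at h6
    change idx t + (5 - δ j) ≤ hi
    omega
  · rintro ⟨j, y, t⟩ hit ⟨j', y', t'⟩ hit' hne
    obtain ⟨hj, hy, ht, hyt⟩ : j ∈ J ∧ y ∈ K G v m j.1 j.2 ∧ t ∈ tl v m ∧ G.Adj y t := hmem _ hit
    obtain ⟨hj', hy', ht', hyt'⟩ : j' ∈ J ∧ y' ∈ K G v m j'.1 j'.2 ∧ t' ∈ tl v m ∧ G.Adj y' t' :=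
      hmem _ hit'
    have hj1 := hδ _ hj
    have hj2 := hδ _ hj'
    have h6 := hsep j hj j' hj' y y' t t' hy hy' ht ht' hyt hyt' (by
      rintro ⟨rfl, rfl⟩
      apply hne
      have h7 := hinj (hJ j hj) (hJ j' hj') hy hy'
      have h8 : j = j' := Prod.ext h7.1 h7.2
      rw [h8])
    change idx t + (5 - δ j) + (5 - δ j') ≤ idx t' ∨ idx t' + (5 - δ j) + (5 - δ j') ≤ idx t
    omega

/-- the classes -/
def J12 : Finset (ℕ × ℕ) := {(0, 2), (0, 3), (0, 4), (1, 1), (1, 2), (1, 3), (1, 4), (2, 0), (2, 1),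
  (2, 2), (2, 3), (2, 4)}

/-- the classes at distance at most five from `v 2` -/
def J11 : Finset (ℕ × ℕ) := {(0, 2), (0, 3), (0, 4), (1, 1), (1, 2), (1, 3), (1, 4), (2, 0), (2, 1),
  (2, 2), (2, 3)}

/-- the distances from `v 2` -/
def d2 (j : ℕ × ℕ) : ℕ := if j.1 = 0 then j.2 - 2 else if j.1 = 1 then j.2 else j.2 + 2

/-- walks from `v 2` -/
theorem walk2 (h12 : ∀ (w : V) (c : G.Walk w w), c.IsCycle → 12 ≤ c.length) (h : LP G v m)
    (hm : 5 ≤ m) {c d : ℕ} (hd : d ≤ 4) {y : V} (hy : y ∈ K G v m c d) :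
    ∃ w : (fr G v m).Walk (v 2) y, w.length ≤ d2 (c, d) := by
  have h12F := fr12 (v := v) (m := m) h12
  obtain ⟨p, hp, hpl, hQ⟩ := mem_K.1 hy
  obtain ⟨q2, hq2, hql2, _⟩ := down h hm 2 (by norm_num)
  obtain ⟨q3, hq3, hql3, _⟩ := down h hm 1 (by norm_num)
  have key : ∀ (x : V) (q : (fr G v m).Walk (v 4) x), q.IsPath → q.length ≤ 2 →
      ∀ hx : x ∈ p.support, (p.dropUntil x hx).length + q.length = d := by
    intro x q hq hql hx
    have h1 := Ord.uniq h12F (hp.takeUntil hx) hq (by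
      have := p.length_takeUntil_le_length hx
      omega)
    have h2 := congrArg Walk.length (p.take_spec hx)
    rw [Walk.length_append, h1] at h2
    omega
  rcases hQ with ⟨rfl, h1, h2⟩ | ⟨rfl, h1, h2⟩ | ⟨rfl, h1⟩
  · have h3 : (p.dropUntil (v 2) h2).length + q2.length = d := key _ q2 hq2 (by omega) h2
    refine ⟨p.dropUntil _ h2, ?_⟩
    unfold d2
    simp only [if_true]
    omega
  · have h3 := key _ q3 hq3 (by omega) h1
    have ha : (fr G v m).Adj (v 2) (v 3) :=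
      ⟨h.adj 2 (by omega), low_tl h (by norm_num) hm, low_tl h (by norm_num) hm⟩
    refine ⟨Walk.cons ha (p.dropUntil _ h1), ?_⟩
    rw [Walk.length_cons]
    unfold d2
    simp only [Nat.one_ne_zero, if_false, if_true]
    change (p.dropUntil (v 3) h1).length + 1 ≤ d
    have h4 : (p.dropUntil (v 3) h1).length + q3.length = d := h3
    omega
  · refine ⟨q2.reverse.append p, ?_⟩
    rw [Walk.length_append, Walk.length_reverse]
    unfold d2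
    simp only [OfNat.ofNat_ne_zero, OfNat.ofNat_ne_one, if_false]
    change q2.length + p.length ≤ d + 2
    omega

/-- the arithmetic -/
theorem arith {A2 A3 A4 B2 B3 B4 C1 C2 C3 C4 a2 a3 a4 b1 b2 b3 b4 c0 c1 c2 c3 c4 : ℕ}
    (ha2 : 2 * A2 ≤ a2 + A3) (ha3 : 2 * A3 ≤ a3 + A4) (ha4 : 2 * A4 ≤ a4 + 0)
    (hb1 : 1 ≤ b1 + B2) (hb2 : 2 * B2 ≤ b2 + B3) (hb3 : 2 * B3 ≤ b3 + B4)
    (hb4 : 2 * B4 ≤ b4 + 0) (hc0 : 2 ≤ c0 + C1) (hc1 : 2 * C1 ≤ c1 + C2)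
    (hc2 : 2 * C2 ≤ c2 + C3) (hc3 : 2 * C3 ≤ c3 + C4) (hc4 : 2 * C4 ≤ c4 + 0)
    (n2 : 1 ≤ A2) (n3 : 1 ≤ A3) (n4 : 1 ≤ A4) (f3 : 1 ≤ C3 → 1 ≤ C2) (f2 : 1 ≤ C2 → 1 ≤ C1)
    (p1 : 2 + (10 * a2 + 8 * a3 + 6 * a4 + (8 * b1 + 6 * b2 + 4 * b3 + 2 * b4) +
      (6 * c0 + 4 * c1 + 2 * c2)) ≤ 51)
    (p2 : 6 * a2 + 4 * a3 + 2 * a4 + (8 * b1 + 6 * b2 + 4 * b3 + 2 * b4) +
      (10 * c0 + 8 * c1 + 6 * c2 + 4 * c3 + 2 * c4) ≤ 53) : False := by
  have hB : 8 ≤ 8 * b1 + 6 * b2 + 4 * b3 + 2 * b4 := by linarith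
  rcases Nat.lt_or_ge C1 C3 with h | h
  · have h1 := f3 (by omega)
    have h2 := f2 h1
    have hA : 14 ≤ 6 * a2 + 4 * a3 + 2 * a4 := by linarith
    have hC : 34 ≤ 10 * c0 + 8 * c1 + 6 * c2 + 4 * c3 + 2 * c4 := by linarith
    linarith
  · have hA : 30 ≤ 10 * a2 + 8 * a3 + 6 * a4 := by linarith
    have hC : 12 ≤ 6 * c0 + 4 * c1 + 2 * c2 := by linarith
    linarith

theorem contra (h12 : ∀ (w : V) (c : G.Walk w w), c.IsCycle → 12 ≤ c.length)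
    (h3 : ∀ x y, G.Adj x y → ∃ a b c, G.Adj x a ∧ G.Adj x b ∧ G.Adj x c ∧ a ≠ b ∧ a ≠ c ∧ b ≠ c)
    (hc : ∀ (w : V) (c : G.Walk w w), c.IsCycle → c.length ≤ 45) (h : LP G v m) (hm : 5 ≤ m) :
    False := by
  have hJ : ∀ j ∈ J11, j.2 ≤ 4 := by decide
  have p1 := pack2 h12 hc h hm J11 d2 (v 2) (by decide)
    (fun j hj y hy => walk2 h12 h hm (hJ j hj) hy) (by decide) (lo := 2) (hi := 51)
    (by norm_num) (by decide) (by decide) (by decide)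
  have p2 := pack2 h12 hc h hm J12 (fun j => j.2) (v 4) (by decide)
    (fun j hj y hy => by
      obtain ⟨p, _, hpl, _⟩ := mem_K.1 hy
      exact ⟨p, hpl.le⟩) (by decide) (lo := 0) (hi := 53)
    (by norm_num) (by decide) (by decide) (by decide)
  have a2 := lvlK h12 h3 h hm (c := 0) (d := 2) (by norm_num) (by norm_num) (Or.inl rfl)
  have a3 := lvlK h12 h3 h hm (c := 0) (d := 3) (by norm_num) (by norm_num) (Or.inl rfl)
  have a4 := lvlK h12 h3 h hm (c := 0) (d := 4) (by norm_num) (by norm_num) (Or.inl rfl)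
  have b1 := lvl3 h12 h3 h hm
  have b2 := lvlK h12 h3 h hm (c := 1) (d := 2) (by norm_num) (by norm_num)
    (Or.inr (Or.inl ⟨rfl, le_rfl⟩))
  have b3 := lvlK h12 h3 h hm (c := 1) (d := 3) (by norm_num) (by norm_num)
    (Or.inr (Or.inl ⟨rfl, by norm_num⟩))
  have b4 := lvlK h12 h3 h hm (c := 1) (d := 4) (by norm_num) (by norm_num)
    (Or.inr (Or.inl ⟨rfl, by norm_num⟩))
  have c0 := lvl4 h12 h3 h hm
  have c1 := lvlK h12 h3 h hm (c := 2) (d := 1) (by norm_num) (by norm_num) (Or.inr (Or.inr rfl))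
  have c2 := lvlK h12 h3 h hm (c := 2) (d := 2) (by norm_num) (by norm_num) (Or.inr (Or.inr rfl))
  have c3 := lvlK h12 h3 h hm (c := 2) (d := 3) (by norm_num) (by norm_num) (Or.inr (Or.inr rfl))
  have c4 := lvlK h12 h3 h hm (c := 2) (d := 4) (by norm_num) (by norm_num) (Or.inr (Or.inr rfl))
  have n2 : 1 ≤ (K G v m 0 2).card :=
    card_pos.2 ⟨_, in_K h hm (c := 0) (k := 2) (by norm_num) (by omega)⟩
  have n3 : 1 ≤ (K G v m 0 3).card :=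
    card_pos.2 ⟨_, in_K h hm (c := 0) (k := 3) (by norm_num) (by omega)⟩
  have n4 : 1 ≤ (K G v m 0 4).card :=
    card_pos.2 ⟨_, in_K h hm (c := 0) (k := 4) (by norm_num) (by omega)⟩
  have e0 := K5 h hm 0
  have e1 := K5 h hm 1
  have e2 := K5 h hm 2
  have f3 := anc (G := G) (v := v) (m := m) (d := 2)
  have f2 := anc (G := G) (v := v) (m := m) (d := 1)
  simp only [Nat.reduceAdd] at a2 a3 a4 b2 b3 b4 c1 c2 c3 c4 f3 f2
  rw [e0] at a4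
  rw [e1] at b4
  rw [e2] at c4
  have e11 : ∀ f : ℕ × ℕ → ℕ, ∑ j ∈ J11, f j = f (0, 2) + (f (0, 3) + (f (0, 4) + (f (1, 1) +
      (f (1, 2) + (f (1, 3) + (f (1, 4) + (f (2, 0) + (f (2, 1) + (f (2, 2) + f (2, 3)))))))))) := by
    intro f
    unfold J11
    repeat rw [sum_insert (by decide)]
    rw [sum_singleton]
  have e12 : ∀ f : ℕ × ℕ → ℕ, ∑ j ∈ J12, f j = f (0, 2) + (f (0, 3) + (f (0, 4) + (f (1, 1) +
      (f (1, 2) + (f (1, 3) + (f (1, 4) + (f (2, 0) + (f (2, 1) + (f (2, 2) + (f (2, 3) +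
      f (2, 4))))))))))) := by
    intro f
    unfold J12
    repeat rw [sum_insert (by decide)]
    rw [sum_singleton]
  rw [e11] at p1
  rw [e12] at p2
  have g : ∀ k : ℕ × ℕ, d2 k = if k.1 = 0 then k.2 - 2 else if k.1 = 1 then k.2 else k.2 + 2 :=
    fun _ => rfl
  simp only [g] at p1
  norm_num at p1 p2
  refine arith a2 a3 a4 b1 b2 b3 b4 c0 c1 c2 c3 c4 n2 n3 n4 f3 f2 ?_ ?_
  · linarith
  · linarith

end Pool.Agent.N393.CF
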