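import Pool.Agent.N393.CF.Fin
import Pool.Agent.N393.C13.Lft

set_option autoImplicit false
set_option linter.unusedSectionVars false

/-!
# Multigraphs without circuits longer than 45: closure under contractions and flows
-/

namespace Pool.Agent.N393.CF

open Finset Pool.Agent.TH676.Z Pool.Agent.Y335.FL Pool.Agent.Y358.IN Pool.Agent.R145.Cir
  Pool.Agent.R140.PK Pool.Agent.N393.C13 Pool.Agent.N393.AHL

section
variable {V : Type} [Fintype V] [DecidableEq V] {G : SimpleGraph V}

/-- the longest path -/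
theorem exists_LP (h : ∃ (x y : V) (p : G.Walk x y), p.IsPath ∧ p.length = 5) :
    ∃ (v : ℕ → V) (m : ℕ), LP G v m ∧ 5 ≤ m := by
  classical
  let P : ℕ → Prop := fun n => ∃ (x y : V) (p : G.Walk x y), p.IsPath ∧ p.length = n
  have hb : ∀ n, P n → n ≤ Fintype.card V := by
    rintro n ⟨x, y, p, hp, rfl⟩
    exact hp.length_lt.le
  have h5 : P 5 := h
  obtain ⟨x, y, p, hp, hpl⟩ : P (Nat.findGreatest P (Fintype.card V)) :=
    Nat.findGreatest_spec (hb 5 h5) h5
  have hm : 5 ≤ p.length := by
    rw [hpl]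
    exact Nat.le_findGreatest (hb 5 h5) h5
  refine ⟨p.getVert, p.length, ⟨?_, ?_, ?_⟩, hm⟩
  · intro i hi j hj hij
    exact hp.getVert_injOn hi hj hij
  · intro i hi
    exact p.adj_getVert_succ hi
  · intro x' y' q hq
    rw [hpl]
    exact Nat.le_findGreatest (hb _ ⟨x', y', q, hq, rfl⟩) ⟨x', y', q, hq, rfl⟩

/-- **Graphs of girth at least twelve and minimum degree at least three have a circuit of length at
least 46.** -/
theorem circ46 (h12 : ∀ (w : V) (c : G.Walk w w), c.IsCycle → 12 ≤ c.length)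
    (h3 : ∀ x y, G.Adj x y → ∃ a b c, G.Adj x a ∧ G.Adj x b ∧ G.Adj x c ∧ a ≠ b ∧ a ≠ c ∧ b ≠ c)
    (hne : ∃ x y, G.Adj x y)
    (hc : ∀ (w : V) (c : G.Walk w w), c.IsCycle → c.length ≤ 45) : False := by
  classical
  obtain ⟨x, y, hxy⟩ := hne
  have h2 : ∀ x y, G.Adj x y → 2 ≤ G.degree x := fun x y h => by
    have := deg3_of h3 x y h
    omega
  have h5 := b_pos h12 h2 5 le_rfl x y hxy
  obtain ⟨z, hz⟩ := card_pos.1 h5
  obtain ⟨p, hp, hpl, _⟩ := Ord.mem_Bs.1 hz
  obtain ⟨v, m, h, hm⟩ := exists_LP ⟨_, _, p, hp, hpl⟩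
  exact contra h12 h3 hc h hm

end

section
variable {V E : Type} [Fintype V] [DecidableEq V] [Fintype E] [DecidableEq E]

/-- no circuits longer than `k` -/
def ClC (k : ℕ) (src dst : E → V) : Prop := ∀ l, Ci (nbG src dst univ) l → l.length ≤ k

theorem ccC (k : ℕ) : CC (V := V) (E := E) (ClC k) := by
  intro src dst e h hne l hl
  have hF : FC src dst univ (ctr (src e) (dst e)) := by
    intro x y hxy
    by_cases hxyeq : x = y
    · rw [hxyeq]
    · have hcu : ctr (src e) (dst e) (src e) = src e := ctr_u _ _ hne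
      have hcv : ctr (src e) (dst e) (dst e) = src e := ctr_v _ _
      by_cases hx : x = dst e
      · have hy : y = src e := by
          by_cases hy' : y = dst e
          · exact absurd (hx.trans hy'.symm) hxyeq
          · rw [hx, hcv, ctr_of_ne hy'] at hxy
            exact hxy.symm
        subst hx
        subst hy
        exact Relation.ReflTransGen.single
          ⟨⟨e, mem_univ _, Or.inr ⟨rfl, rfl⟩⟩, rfl, hcu.trans hcv.symm⟩
      · rw [ctr_of_ne hx] at hxy
        by_cases hy : y = dst e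
        · rw [hy, hcv] at hxy
          subst hy
          subst hxy
          exact Relation.ReflTransGen.single
            ⟨⟨e, mem_univ _, Or.inl ⟨rfl, rfl⟩⟩, rfl, hcv.trans hcu.symm⟩
        · rw [ctr_of_ne hy] at hxy
          exact absurd hxy hxyeq
  obtain ⟨l', hl', hle⟩ := Lft.main V E src dst univ (ctr (src e) (dst e)) hF l hl
  exact hle.trans (h l' hl')

/-- **Circumference at most 45.** -/
theorem flow_of_ClC (hc : St_contract) (src dst : E → V)
    (hcl : ClC 45 src dst) (hbr : Br src dst ∅ ∅) : FlowOn src dst ∅ ∅ := by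
  classical
  by_contra hn
  obtain ⟨s, d, hcl, hM⟩ := exists_minC (ccC 45) src dst hcl hbr hn
  obtain ⟨G, hG, h12, h3, hne, _⟩ := frame hc hM
  have hGe : G = nbG s d univ := by
    ext a b
    rw [hG]
    constructor
    · rintro ⟨h1, e, he⟩
      exact ⟨h1.symm, e, mem_univ _, he⟩
    · rintro ⟨h1, e, _, he⟩
      exact ⟨h1.symm, e, he⟩
  subst hGe
  refine circ46 h12 h3 hne fun w c hc => ?_
  obtain ⟨h4, h5, _⟩ := walk_ci c hc
  rw [← h5]
  exact hcl _ h4

theorem ClC.of {k : ℕ} {s t : E → V} (h : ∀ n, k < n → ∀ v : ℕ → V,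
    ¬ ((∀ i < n, ∀ j < n, v i = v j → i = j) ∧ ∀ i < n, ∃ e,
      (s e = v i ∧ t e = v ((i + 1) % n)) ∨ (s e = v ((i + 1) % n) ∧ t e = v i))) :
    ClC k s t := by
  intro l hl
  by_contra hcon
  push Not at hcon
  have hpos : 0 < l.length := by omega
  refine h l.length hcon (fun i => l.getD i (l[0]'hpos)) ⟨?_, ?_⟩
  · intro i hi j hj hij
    simp only [List.getD_eq_getElem?_getD, List.getElem?_eq_getElem hi,
      List.getElem?_eq_getElem hj, Option.getD_some] at hij
    exact (List.Nodup.getElem_inj_iff hl.1.1).mp hij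
  · intro i hi
    have hj : (i + 1) % l.length < l.length := Nat.mod_lt _ hpos
    simp only [List.getD_eq_getElem?_getD, List.getElem?_eq_getElem hi,
      List.getElem?_eq_getElem hj, Option.getD_some]
    have h1 := adj_ix hl (List.getElem?_eq_getElem hi)
      (List.getElem?_eq_getElem hj) (by
      unfold Ai
      rcases Nat.lt_or_ge (i + 1) l.length with h | h
      · left; exact Nat.mod_eq_of_lt h
      · right; right; left
        have : i + 1 = l.length := by omega
        exact ⟨this, by rw [this, Nat.mod_self]⟩)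
    obtain ⟨_, e, _, he⟩ := h1
    refine ⟨e, ?_⟩
    rcases he with ⟨h3, h4⟩ | ⟨h3, h4⟩
    · exact Or.inl ⟨h3, h4⟩
    · exact Or.inr ⟨h3, h4⟩

end

end Pool.Agent.N393.CF
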